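import Pool.Agent.H703R3.MBLines

/-!
# MP_d967a3_an, Q1: tables of `ℝⁿ`, `n ≥ 3`, other than ellipsoids, with an invariant hypersurface

The definitions used by the statement (`Euc`, `IsTable`, `IsOuterNormal`, `outerNormal`,
`IsEllipsoid`, `lines`, `lineTangent`, `lineThrough`, `exitPoint`, `billiardMap`,
`IsInvariantHypersurface`) are in `Pool/Agent/H703R3/MBDefs.lean`.

The table is `‖x‖² + x₃⁴ ≤ 1` and the hypersurface is the set of oriented lines with angular
momentum `x₁ v₂ - x₂ v₁ = 1/2`.
-/

set_option autoImplicit false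

namespace Pool.Agent.Results.MP_d967a3_an.InnerHypersurface

open Pool.Agent.H703R3.MB

/-- In every dimension `n ≥ 3` there is a billiard table that is not an ellipsoid and whose billiard
map has an invariant hypersurface. -/
theorem result : ∀ n : ℕ, 3 ≤ n → ∃ Ω : Set (Euc n), IsTable Ω ∧ ¬ IsEllipsoid Ω ∧
    ∃ S : Set (Euc n × Euc n), IsInvariantHypersurface Ω S := q1

end Pool.Agent.Results.MP_d967a3_an.InnerHypersurface
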