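import Pool.Agent.H703R3.MBOuter

/-!
# MP_d967a3_an, Q2: convex bodies of `ℝ²ᵐ`, `m ≥ 2`, other than ellipsoids, whose outer billiard has
an invariant hypersurface

The definitions used by the statement (`Sym`, `IsTable`, `IsOuterNormal`, `outerNormal`,
`IsEllipsoid`, `J`, `IsTangencyPoint`, `outerBilliard`, `IsOuterInvariantHypersurface`) are in
`Pool/Agent/H703R3/MBDefs.lean`.

The body is `‖x‖² + |z₂|⁴ ≤ 1`, `z_i = q_i + √-1 p_i`, and the hypersurface is `|z₁|² = 4`.
-/

set_option autoImplicit false

namespace Pool.Agent.Results.MP_d967a3_an.OuterHypersurface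

open Pool.Agent.H703R3.MB

/-- For every `m ≥ 2` there is a convex body in `ℝ²ᵐ` with smooth, strictly convex boundary that is
not an ellipsoid and whose outer billiard map (well defined, since each exterior point has exactly
one tangency point) has an invariant hypersurface. -/
theorem result : ∀ m : ℕ, 2 ≤ m → ∃ K : Set (Sym m), IsTable K ∧ ¬ IsEllipsoid K ∧
    (∀ x ∈ Kᶜ, ∃! y, IsTangencyPoint K x y) ∧
    ∃ S : Set (Sym m), IsOuterInvariantHypersurface K S := q2

end Pool.Agent.Results.MP_d967a3_an.OuterHypersurface
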